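import Mathlib

/-!
# The wheels `W_7`, `W_8`, `W_9` and `W_10` are geodesic Leech graphs

A geodesic path with at least one edge is given by its set of edges (a path and its reverse have
the same set of edges, and different paths up to reversal have different sets of edges).
-/

namespace Pool.Agent.Results.MP_071a69_co.SmallWheels

open SimpleGraph

/-- The geodesic paths of `G`: the paths with at least one edge whose length is the distance
between their two endpoints.  A path is given by the set of its edges, so that it is identified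
with its reverse (and only with its reverse). -/
def GeodesicPaths {V : Type} [DecidableEq V] (G : SimpleGraph V) : Set (Finset (Sym2 V)) :=
  {P | ∃ (u v : V) (p : G.Walk u v), p.IsPath ∧ 1 ≤ p.length ∧ p.length = G.dist u v ∧
    P = p.edges.toFinset}

/-- The geodesic path number. -/
noncomputable def tgp {V : Type} [DecidableEq V] (G : SimpleGraph V) : ℕ :=
  (GeodesicPaths G).ncard

/-- The weight of a path for the edge labeling `f`. -/
def weight {V : Type} (f : Sym2 V → ℕ) (P : Finset (Sym2 V)) : ℕ := ∑ e ∈ P, f e

/-- `f` is a geodesic Leech labeling of `G`: the labels of the edges are positive, and the set of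
weights of the geodesic paths is exactly `{1, ..., tgp G}`. -/
def IsGeodesicLeech {V : Type} [DecidableEq V] (G : SimpleGraph V) (f : Sym2 V → ℕ) : Prop :=
  (∀ e ∈ G.edgeSet, 1 ≤ f e) ∧ weight f '' GeodesicPaths G = Set.Icc 1 (tgp G)

/-- The wheel with `m + 1` vertices: the cycle `0, 1, ..., m - 1` and one further vertex, `none`,
joined to all vertices of the cycle. -/
def wheel (m : ℕ) [NeZero m] : SimpleGraph (Option (Fin m)) where
  Adj
    | none, none => False
    | none, some _ => True
    | some _, none => True
    | some i, some j => i ≠ j ∧ (j = i + 1 ∨ i = j + 1)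
  symm := ⟨by
    rintro (_ | i) (_ | j) h
    · exact h
    · trivial
    · trivial
    · exact ⟨h.1.symm, h.2.symm⟩⟩
  loopless := ⟨by
    rintro (_ | i) h
    · exact h
    · exact h.1 rfl⟩

instance (m : ℕ) [NeZero m] : DecidableRel (wheel m).Adj
  | none, none => inferInstanceAs (Decidable False)
  | none, some _ => inferInstanceAs (Decidable True)
  | some _, none => inferInstanceAs (Decidable True)
  | some i, some j => inferInstanceAs (Decidable (i ≠ j ∧ (j = i + 1 ∨ i = j + 1)))

/-- Geodesic paths in a graph in which any two vertices are equal, adjacent or have a common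
neighbour. -/
theorem geodesicPaths_eq {V : Type} [DecidableEq V] (G : SimpleGraph V)
    (hG : ∀ u v : V, u ≠ v → G.Adj u v ∨ ∃ w, G.Adj u w ∧ G.Adj w v) :
    GeodesicPaths G = {P | (∃ u v, G.Adj u v ∧ P = {s(u, v)}) ∨
      ∃ u w v, G.Adj u w ∧ G.Adj w v ∧ u ≠ v ∧ ¬ G.Adj u v ∧ P = {s(u, w), s(w, v)}} := by
  ext P
  constructor
  · rintro ⟨u, v, p, hp, h1, hd, rfl⟩
    have h2 : p.length ≤ 2 := by
      rw [hd]
      by_cases huv : u = v
      · subst huv
        simp
      · rcases hG u v huv with h | ⟨w, hw, hw'⟩
        · exact (dist_le (Walk.cons h Walk.nil)).trans (by simp)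
        · exact (dist_le (Walk.cons hw (Walk.cons hw' Walk.nil))).trans (by simp)
    cases p with
    | nil => simp at h1
    | cons h q =>
      cases q with
      | nil =>
        left
        exact ⟨_, _, h, by simp⟩
      | cons h' r =>
        cases r with
        | nil =>
          right
          refine ⟨_, _, _, h, h', ?_, ?_, by simp⟩
          · rintro rfl
            simp at hp
          · intro hadj
            have := dist_le (Walk.cons hadj Walk.nil)
            simp only [Walk.length_cons, Walk.length_nil] at this hd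
            omega
        | cons h'' r' =>
          simp only [Walk.length_cons] at h2
          omega
  · rintro (⟨u, v, h, rfl⟩ | ⟨u, w, v, h, h', hne, hnadj, rfl⟩)
    · refine ⟨u, v, Walk.cons h Walk.nil, by simp [h.ne], by simp, ?_, by simp⟩
      rw [dist_eq_one_iff_adj.2 h]
      simp
    · refine ⟨u, v, Walk.cons h (Walk.cons h' Walk.nil), ?_, by simp, ?_, by simp⟩
      · simp [h.ne, h'.ne, hne]
      · have hle := dist_le (Walk.cons h (Walk.cons h' Walk.nil))
        have hreach : G.Reachable u v := ⟨Walk.cons h (Walk.cons h' Walk.nil)⟩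
        have h0 : G.dist u v ≠ 0 := fun h0 => hne (hreach.dist_eq_zero_iff.1 h0)
        have h1 : G.dist u v ≠ 1 := fun h1 => hnadj (dist_eq_one_iff_adj.1 h1)
        simp only [Walk.length_cons, Walk.length_nil] at hle ⊢
        omega

/-- A labeling with a table `g` of paths for all weights: `g k = (u, w, v)` stands for the path
`u, w, v`, or for the edge `uw` if `w = v`. -/
theorem leech_of_table {V : Type} [DecidableEq V] (G : SimpleGraph V) (T : ℕ)
    (f : Sym2 V → ℕ) (g : ℕ → V × V × V)
    (hG : ∀ u v : V, u ≠ v → G.Adj u v ∨ ∃ w, G.Adj u w ∧ G.Adj w v)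
    (hpos : ∀ u v, G.Adj u v → 1 ≤ f s(u, v))
    (h1 : ∀ u v, G.Adj u v → f s(u, v) ≤ T ∧
      (g (f s(u, v)) = (u, v, v) ∨ g (f s(u, v)) = (v, u, u)))
    (h2 : ∀ u w v, (G.Adj u w ∧ G.Adj w v ∧ u ≠ v ∧ ¬ G.Adj u v) →
      f s(u, w) + f s(w, v) ≤ T ∧
      (g (f s(u, w) + f s(w, v)) = (u, w, v) ∨ g (f s(u, w) + f s(w, v)) = (v, w, u)))
    (h3 : ∀ k, 1 ≤ k → k ≤ T → ∃ u w v, g k = (u, w, v) ∧ G.Adj u w ∧
      ((w = v ∧ f s(u, w) = k) ∨
        (G.Adj w v ∧ u ≠ v ∧ ¬ G.Adj u v ∧ f s(u, w) + f s(w, v) = k))) :
    tgp G = T ∧ IsGeodesicLeech G f := by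
  have hpair : ∀ u w v, G.Adj u w → G.Adj w v → u ≠ v →
      weight f {s(u, w), s(w, v)} = f s(u, w) + f s(w, v) := by
    intro u w v huw hwv huv
    unfold weight
    rw [Finset.sum_pair]
    intro h
    rw [Sym2.eq_iff] at h
    rcases h with ⟨h, -⟩ | ⟨h, -⟩
    · exact huw.ne h
    · exact huv h
  have hedge : ∀ u v, weight f {s(u, v)} = f s(u, v) := by
    intro u v
    unfold weight
    rw [Finset.sum_singleton]
  -- the path given by the table
  let Q : V × V × V → Finset (Sym2 V) := fun t =>
    if t.2.1 = t.2.2 then {s(t.1, t.2.1)} else {s(t.1, t.2.1), s(t.2.1, t.2.2)}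
  have himg : weight f '' GeodesicPaths G = Set.Icc 1 T := by
    rw [geodesicPaths_eq G hG]
    ext k
    constructor
    · rintro ⟨P, (⟨u, v, h, rfl⟩ | ⟨u, w, v, h, h', hne, hnadj, rfl⟩), rfl⟩
      · rw [hedge]
        exact ⟨hpos u v h, (h1 u v h).1⟩
      · rw [hpair u w v h h' hne]
        have := hpos u w h
        exact ⟨by omega, (h2 u w v ⟨h, h', hne, hnadj⟩).1⟩
    · rintro ⟨hk1, hkT⟩
      obtain ⟨u, w, v, -, huw, (⟨rfl, hk⟩ | ⟨hwv, hne, hnadj, hk⟩)⟩ := h3 k hk1 hkT
      · exact ⟨{s(u, w)}, Or.inl ⟨u, w, huw, rfl⟩, by rw [hedge, hk]⟩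
      · exact ⟨{s(u, w), s(w, v)}, Or.inr ⟨u, w, v, huw, hwv, hne, hnadj, rfl⟩, by
          rw [hpair u w v huw hwv hne, hk]⟩
  have hleft : ∀ P ∈ GeodesicPaths G, Q (g (weight f P)) = P := by
    intro P hP
    rw [geodesicPaths_eq G hG] at hP
    rcases hP with ⟨u, v, h, rfl⟩ | ⟨u, w, v, h, h', hne, hnadj, rfl⟩
    · rw [hedge]
      rcases (h1 u v h).2 with h4 | h4
      · rw [h4]
        simp [Q]
      · rw [h4]
        simp [Q, Sym2.eq_swap]
    · rw [hpair u w v h h' hne]
      rcases (h2 u w v ⟨h, h', hne, hnadj⟩).2 with h4 | h4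
      · rw [h4]
        simp [Q, h'.ne]
      · rw [h4]
        simp only [Q, h.ne.symm, if_false]
        rw [Finset.pair_comm, Sym2.eq_swap, Sym2.eq_swap (a := v)]
  have hinj : Set.InjOn (weight f) (GeodesicPaths G) := by
    intro P hP P' hP' h
    rw [← hleft P hP, ← hleft P' hP', h]
  have htgp : tgp G = T := by
    unfold tgp
    rw [← hinj.ncard_image, himg, Set.ncard_eq_toFinset_card']
    simp
  refine ⟨htgp, ?_, ?_⟩
  · intro e he
    induction e with
    | _ u v => exact hpos u v he
  · rw [himg, htgp]

/-- The labeling with the label `a i` at the edge between `none` and `i`, and `b i` at the edge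
between `i` and `i + 1`. -/
def lab {m : ℕ} [NeZero m] (a b : Fin m → ℕ) : Sym2 (Option (Fin m)) → ℕ :=
  Sym2.lift ⟨fun u v => match u, v with
    | none, none => 0
    | none, some i => a i
    | some i, none => a i
    | some i, some j => (if j = i + 1 then b i else 0) + (if i = j + 1 then b j else 0), by
      rintro (_ | i) (_ | j)
      · rfl
      · rfl
      · rfl
      · exact Nat.add_comm _ _⟩

def a6 : Fin 6 → ℕ := ![1, 2, 3, 15, 23, 7]

def b6 : Fin 6 → ℕ := ![5, 6, 12, 8, 13, 14]

/-- the paths of weights `0` (none), `1`, ..., `27` -/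
def g6 (k : ℕ) : Option (Fin 6) × Option (Fin 6) × Option (Fin 6) :=
  ([
    (none, none, none), (none, some 0, some 0), (none, some 1, some 1), (none, some 2, some 2),
    (some 0, none, some 2), (some 0, some 1, some 1), (some 1, some 2, some 2),
    (none, some 5, some 5), (some 3, some 4, some 4), (some 1, none, some 5),
    (some 2, none, some 5), (some 0, some 1, some 2), (some 2, some 3, some 3),
    (some 4, some 5, some 5), (some 5, some 0, some 0), (none, some 3, some 3),
    (some 0, none, some 3), (some 1, none, some 3), (some 1, some 2, some 3),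
    (some 5, some 0, some 1), (some 2, some 3, some 4), (some 3, some 4, some 5),
    (some 3, none, some 5), (none, some 4, some 4), (some 0, none, some 4),
    (some 1, none, some 4), (some 2, none, some 4), (some 4, some 5, some 0)] :
    List (Option (Fin 6) × Option (Fin 6) × Option (Fin 6))).getD k (none, none, none)

theorem wheel_6 : tgp (wheel 6) = 27 ∧ IsGeodesicLeech (wheel 6) (lab a6 b6) := by
  apply leech_of_table (wheel 6) 27 (lab a6 b6) g6
  · decide
  · decide
  · decide
  · decide +kernel
  · intro k h1 h2
    interval_cases k <;> exact ⟨_, _, _, rfl, by decide, by decide⟩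

def a7 : Fin 7 → ℕ := ![1, 2, 3, 5, 21, 27, 10]

def b7 : Fin 7 → ℕ := ![8, 9, 11, 14, 19, 16, 18]

/-- the paths of weights `0` (none), `1`, ..., `35` -/
def g7 (k : ℕ) : Option (Fin 7) × Option (Fin 7) × Option (Fin 7) :=
  ([
    (none, none, none), (none, some 0, some 0), (none, some 1, some 1), (none, some 2, some 2),
    (some 0, none, some 2), (none, some 3, some 3), (some 0, none, some 3),
    (some 1, none, some 3), (some 0, some 1, some 1), (some 1, some 2, some 2),
    (none, some 6, some 6), (some 2, some 3, some 3), (some 1, none, some 6),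
    (some 2, none, some 6), (some 3, some 4, some 4), (some 3, none, some 6),
    (some 5, some 6, some 6), (some 0, some 1, some 2), (some 6, some 0, some 0),
    (some 4, some 5, some 5), (some 1, some 2, some 3), (none, some 4, some 4),
    (some 0, none, some 4), (some 1, none, some 4), (some 2, none, some 4),
    (some 2, some 3, some 4), (some 6, some 0, some 1), (none, some 5, some 5),
    (some 0, none, some 5), (some 1, none, some 5), (some 2, none, some 5),
    (some 4, none, some 6), (some 3, none, some 5), (some 3, some 4, some 5),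
    (some 5, some 6, some 0), (some 4, some 5, some 6)] :
    List (Option (Fin 7) × Option (Fin 7) × Option (Fin 7))).getD k (none, none, none)

theorem wheel_7 : tgp (wheel 7) = 35 ∧ IsGeodesicLeech (wheel 7) (lab a7 b7) := by
  apply leech_of_table (wheel 7) 35 (lab a7 b7) g7
  · decide
  · decide
  · decide
  · decide +kernel
  · intro k h1 h2
    interval_cases k <;> exact ⟨_, _, _, rfl, by decide, by decide⟩

def a8 : Fin 8 → ℕ := ![1, 2, 3, 5, 8, 24, 30, 12]

def b8 : Fin 8 → ℕ := ![13, 28, 16, 23, 19, 18, 22, 21]

/-- the paths of weights `0` (none), `1`, ..., `44` -/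
def g8 (k : ℕ) : Option (Fin 8) × Option (Fin 8) × Option (Fin 8) :=
  ([
    (none, none, none), (none, some 0, some 0), (none, some 1, some 1), (none, some 2, some 2),
    (some 0, none, some 2), (none, some 3, some 3), (some 0, none, some 3),
    (some 1, none, some 3), (none, some 4, some 4), (some 0, none, some 4),
    (some 1, none, some 4), (some 2, none, some 4), (none, some 7, some 7),
    (some 0, some 1, some 1), (some 1, none, some 7), (some 2, none, some 7),
    (some 2, some 3, some 3), (some 3, none, some 7), (some 5, some 6, some 6),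
    (some 4, some 5, some 5), (some 4, none, some 7), (some 7, some 0, some 0),
    (some 6, some 7, some 7), (some 3, some 4, some 4), (none, some 5, some 5),
    (some 0, none, some 5), (some 1, none, some 5), (some 2, none, some 5),
    (some 1, some 2, some 2), (some 3, none, some 5), (none, some 6, some 6),
    (some 0, none, some 6), (some 1, none, some 6), (some 2, none, some 6),
    (some 7, some 0, some 1), (some 3, none, some 6), (some 5, none, some 7),
    (some 4, some 5, some 6), (some 4, none, some 6), (some 2, some 3, some 4),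
    (some 5, some 6, some 7), (some 0, some 1, some 2), (some 3, some 4, some 5),
    (some 6, some 7, some 0), (some 1, some 2, some 3)] :
    List (Option (Fin 8) × Option (Fin 8) × Option (Fin 8))).getD k (none, none, none)

theorem wheel_8 : tgp (wheel 8) = 44 ∧ IsGeodesicLeech (wheel 8) (lab a8 b8) := by
  apply leech_of_table (wheel 8) 44 (lab a8 b8) g8
  · decide
  · decide
  · decide
  · decide +kernel
  · intro k h1 h2
    interval_cases k <;> exact ⟨_, _, _, rfl, by decide, by decide⟩

def a9 : Fin 9 → ℕ := ![1, 2, 15, 3, 22, 10, 18, 26, 32]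

def b9 : Fin 9 → ℕ := ![6, 46, 7, 31, 14, 30, 9, 8, 43]

/-- the paths of weights `0` (none), `1`, ..., `54` -/
def g9 (k : ℕ) : Option (Fin 9) × Option (Fin 9) × Option (Fin 9) :=
  ([
    (none, none, none), (none, some 0, some 0), (none, some 1, some 1), (none, some 3, some 3),
    (some 0, none, some 3), (some 1, none, some 3), (some 0, some 1, some 1),
    (some 2, some 3, some 3), (some 7, some 8, some 8), (some 6, some 7, some 7),
    (none, some 5, some 5), (some 0, none, some 5), (some 1, none, some 5),
    (some 3, none, some 5), (some 4, some 5, some 5), (none, some 2, some 2),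
    (some 0, none, some 2), (some 6, some 7, some 8), (none, some 6, some 6),
    (some 0, none, some 6), (some 1, none, some 6), (some 3, none, some 6),
    (none, some 4, some 4), (some 0, none, some 4), (some 1, none, some 4),
    (some 2, none, some 5), (none, some 7, some 7), (some 0, none, some 7),
    (some 1, none, some 7), (some 3, none, some 7), (some 5, some 6, some 6),
    (some 3, some 4, some 4), (none, some 8, some 8), (some 2, none, some 6),
    (some 1, none, some 8), (some 3, none, some 8), (some 5, none, some 7),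
    (some 2, none, some 4), (some 2, some 3, some 4), (some 5, some 6, some 7),
    (some 4, none, some 6), (some 2, none, some 7), (some 5, none, some 8),
    (some 8, some 0, some 0), (some 4, some 5, some 6), (some 3, some 4, some 5),
    (some 1, some 2, some 2), (some 2, none, some 8), (some 4, none, some 7),
    (some 8, some 0, some 1), (some 6, none, some 8), (some 7, some 8, some 0),
    (some 0, some 1, some 2), (some 1, some 2, some 3), (some 4, none, some 8)] :
    List (Option (Fin 9) × Option (Fin 9) × Option (Fin 9))).getD k (none, none, none)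

theorem wheel_9 : tgp (wheel 9) = 54 ∧ IsGeodesicLeech (wheel 9) (lab a9 b9) := by
  apply leech_of_table (wheel 9) 54 (lab a9 b9) g9
  · decide
  · decide
  · decide
  · decide +kernel
  · intro k h1 h2
    interval_cases k <;> exact ⟨_, _, _, rfl, by decide, by decide⟩

/-- The wheels with `7`, `8`, `9` and `10` vertices are geodesic Leech graphs; so it is false that
for every `n ≥ 7` the wheel `W_n` with `n` vertices is not a geodesic Leech graph. -/
theorem result :
    (tgp (wheel 6) = 27 ∧ ∃ f, IsGeodesicLeech (wheel 6) f) ∧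
    (tgp (wheel 7) = 35 ∧ ∃ f, IsGeodesicLeech (wheel 7) f) ∧
    (tgp (wheel 8) = 44 ∧ ∃ f, IsGeodesicLeech (wheel 8) f) ∧
    (tgp (wheel 9) = 54 ∧ ∃ f, IsGeodesicLeech (wheel 9) f) ∧
    ¬ ∀ (m : ℕ) [NeZero m], 7 ≤ m + 1 → ¬ ∃ f, IsGeodesicLeech (wheel m) f :=
  ⟨⟨wheel_6.1, _, wheel_6.2⟩, ⟨wheel_7.1, _, wheel_7.2⟩, ⟨wheel_8.1, _, wheel_8.2⟩,
    ⟨wheel_9.1, _, wheel_9.2⟩, fun h => h 6 (by norm_num) ⟨_, wheel_6.2⟩⟩

end Pool.Agent.Results.MP_071a69_co.SmallWheels
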